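import Pool.Agent.R23.TT.Stm

set_option autoImplicit false

namespace Pool.Agent.R23.TT.CNTf

open Finset

theorem t_CNT : S_CNT := by
  intro n a m A y hR hy
  classical
  have hmn := hR.lt
  -- number of k after j of the same type
  set C : Fin n → ℕ := fun j => (univ.filter (fun k : Fin n => j < k ∧ a j = a k)).card with hC
  have h1 : (F1 a m).card = ∑ j ∈ univ.filter (fun j : Fin n => j.val < m), j.val * C j := by
    rw [Finset.card_eq_sum_card_fiberwise (f := fun p : Fin n × Fin n × Fin n => p.2.1)
      (t := univ.filter (fun j : Fin n => j.val < m))]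
    · apply Finset.sum_congr rfl
      intro j hj
      rw [mem_filter] at hj
      have hfib : (F1 a m).filter (fun p => p.2.1 = j) =
          ((Finset.Iio j) ×ˢ (univ.filter (fun k : Fin n => j < k ∧ a j = a k))).image
            (fun q : Fin n × Fin n => ((q.1, j, q.2) : Fin n × Fin n × Fin n)) := by
        ext p
        obtain ⟨x, w, z⟩ := p
        simp only [F1, mem_filter, mem_univ, true_and, mem_image, mem_product, mem_Iio,
          Prod.exists, Prod.mk.injEq]
        constructor
        · rintro ⟨⟨h1, h2, h3, h4⟩, rfl⟩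
          exact ⟨x, z, ⟨h1, h2, h4⟩, rfl, rfl, rfl⟩
        · rintro ⟨x', z', ⟨h1, h2, h4⟩, rfl, rfl, rfl⟩
          exact ⟨⟨h1, h2, hj.2, h4⟩, rfl⟩
      rw [hfib, Finset.card_image_of_injective, Finset.card_product, Fin.card_Iio]
      intro q q' h
      simp only [Prod.mk.injEq, true_and] at h
      exact Prod.ext h.1 h.2
    · intro p hp
      have hp' := Finset.mem_coe.mp hp
      rw [F1, mem_filter] at hp'
      apply Finset.mem_coe.mpr
      rw [mem_filter]
      exact ⟨mem_univ _, hp'.2.2.2.1⟩
  have hrange : range m = (univ.filter (fun j : Fin n => j.val < m)).image (fun j => j.val) := by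
    ext k
    simp only [mem_range, mem_image, mem_filter, mem_univ, true_and]
    constructor
    · intro h
      exact ⟨⟨k, by omega⟩, h, rfl⟩
    · rintro ⟨j, h, rfl⟩
      exact h
  have h3 : ∀ j : Fin n, j.val < m → 2 * (C j : ℤ) = ((m : ℤ) - 1 - j.val) + ((n : ℤ) - m) +
      y j.val * (((n : ℤ) - m) + ∑ k ∈ Ico (j.val + 1) m, y k) := by
    intro j hj
    have e1 : 2 * (C j : ℤ) = ∑ k ∈ univ.filter (fun k : Fin n => j < k), (1 + y j.val * y k.val) := by
      have e2 : (univ.filter (fun k : Fin n => j < k ∧ a j = a k)) =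
          (univ.filter (fun k : Fin n => j < k)).filter (fun k => a j = a k) := by
        rw [Finset.filter_filter]
      rw [hC]
      simp only
      rw [e2, Finset.card_filter, Nat.cast_sum, Finset.mul_sum]
      apply Finset.sum_congr rfl
      intro k _
      rw [hy j, hy k]
      by_cases h1 : a j = a k
      · rw [if_pos h1, ← h1]
        by_cases h2 : a j = A
        · rw [if_pos h2]; norm_num
        · rw [if_neg h2]; norm_num
      · rw [if_neg h1]
        by_cases h2 : a j = A
        · have h3 : a k ≠ A := fun h => h1 (h2.trans h.symm)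
          rw [if_pos h2, if_neg h3]; norm_num
        · have h3 : a k = A := by
            cases hA : A <;> cases hj' : a j <;> cases hk' : a k <;> simp_all
          rw [if_neg h2, if_pos h3]; norm_num
    have hIco : Ico (j.val + 1) n = (univ.filter (fun k : Fin n => j < k)).image (fun k => k.val) := by
      ext k
      simp only [mem_Ico, mem_image, mem_filter, mem_univ, true_and]
      constructor
      · intro h
        exact ⟨⟨k, h.2⟩, by rw [Fin.lt_def]; exact h.1, rfl⟩
      · rintro ⟨k', h, rfl⟩
        rw [Fin.lt_def] at h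
        exact ⟨h, k'.2⟩
    have e3 : ∑ k ∈ univ.filter (fun k : Fin n => j < k), (1 + y j.val * y k.val) =
        ∑ k ∈ Ico (j.val + 1) n, (1 + y j.val * y k) := by
      rw [hIco, Finset.sum_image]
      intro x _ x' _ h
      exact Fin.ext h
    have e4 : ∑ k ∈ Ico m n, (1 + y j.val * y k) = ((n : ℤ) - m) + y j.val * ((n : ℤ) - m) := by
      have : ∀ k ∈ Ico m n, (1 + y j.val * y k) = 1 + y j.val := by
        intro k hk
        rw [mem_Ico] at hk
        have h5 := hy ⟨k, hk.2⟩
        rw [if_pos (hR.tail ⟨k, hk.2⟩ hk.1)] at h5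
        simp only at h5
        rw [h5, mul_one]
      rw [Finset.sum_congr rfl this, Finset.sum_const, Nat.card_Ico, nsmul_eq_mul,
        Nat.cast_sub hmn.le]
      ring
    rw [e1, e3, ← Finset.sum_Ico_consecutive _ (show j.val + 1 ≤ m by omega) hmn.le, e4,
      Finset.sum_add_distrib, Finset.sum_const, Nat.card_Ico, nsmul_eq_mul,
      Nat.cast_sub (show j.val + 1 ≤ m by omega), ← Finset.mul_sum]
    push_cast
    ring
  rw [h1, hrange, Finset.sum_image (by intro x _ x' _ h; exact Fin.ext h), Nat.cast_sum,
    Finset.mul_sum]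
  apply Finset.sum_congr rfl
  intro j hj
  rw [mem_filter] at hj
  rw [← h3 j hj.2]
  push_cast
  ring

end Pool.Agent.R23.TT.CNTf
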