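import Pool.Agent.R23.TT.Stm

set_option autoImplicit false

namespace Pool.Agent.R23.TT.F1f

open Finset

theorem t_F1 : S_F1 := by
  classical
  intro n T a m A hO hR p hp
  obtain ⟨i, j, k⟩ := p
  simp only [F1, mem_filter, mem_univ, true_and] at hp
  obtain ⟨hij, hjk, hjm, hajk⟩ := hp
  obtain ⟨l, hjl, hal⟩ : ∃ l : Fin n, j < l ∧ a l ≠ a j := by
    by_cases hA : a j = A
    · rcases hR.last with h0 | ⟨l, hl, hla⟩
      · omega
      · refine ⟨l, ?_, by rw [hA]; exact hla⟩
        have hne : j ≠ l := fun h => hla (h ▸ hA)
        have h1 : j.val ≠ l.val := fun h => hne (Fin.ext h)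
        exact Fin.lt_def.2 (by omega)
    · refine ⟨⟨m, hR.lt⟩, Fin.lt_def.2 hjm, ?_⟩
      rw [hR.tail ⟨m, hR.lt⟩ le_rfl]
      exact fun h => hA h.symm
  have hlk : l ≠ k := fun h => hal (by rw [h, hajk])
  have hil : i < l := hij.trans hjl
  have hik : i < k := hij.trans hjk
  have hQ : ({i, j, k, l} : Finset (Fin n)).card = 4 := by
    rw [card_insert_of_notMem, card_insert_of_notMem, card_insert_of_notMem, card_singleton]
    · simpa using hlk.symm
    · simp [hjk.ne, hjl.ne]
    · simp [hij.ne, hik.ne, hil.ne]
  obtain ⟨t, htT, htQ⟩ := hO.cov _ hQ
  have ht3 := hO.three t htT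
  have hmem : ({i, j, k} : Finset (Fin n)) ∈ T := by
    by_cases h1 : l ∈ t
    · exfalso
      -- `t` omits one of `i, j, k`
      have hsub : ∀ x ∈ t, x = i ∨ x = j ∨ x = k ∨ x = l := by
        intro x hx
        simpa using htQ hx
      have hcase : t = {i, j, l} ∨ t = {i, k, l} ∨ t = {j, k, l} := by
        have hcard : ∀ u : Finset (Fin n), t ⊆ u → u.card ≤ 3 → t = u := by
          intro u hu hc
          exact eq_of_subset_of_card_le hu (by omega)
        by_cases hi : i ∈ t
        · by_cases hj : j ∈ t
          · by_cases hk : k ∈ t
            · exfalso
              have : ({i, j, k, l} : Finset (Fin n)) ⊆ t := by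
                intro x hx
                simp only [mem_insert, mem_singleton] at hx
                rcases hx with rfl | rfl | rfl | rfl <;> assumption
              have := card_le_card this
              omega
            · left
              refine hcard _ (fun x hx => ?_) card_le_three
              rcases hsub x hx with rfl | rfl | rfl | rfl
              · simp
              · simp
              · exact absurd hx hk
              · simp
          · right; left
            refine hcard _ (fun x hx => ?_) card_le_three
            rcases hsub x hx with rfl | rfl | rfl | rfl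
            · simp
            · exact absurd hx hj
            · simp
            · simp
        · right; right
          refine hcard _ (fun x hx => ?_) card_le_three
          rcases hsub x hx with rfl | rfl | rfl | rfl
          · exact absurd hx hi
          · simp
          · simp
          · simp
      rcases lt_or_gt_of_ne hlk with h2 | h2
      · rcases hcase with h | h | h
        · exact hal (hO.mono i j l hij hjl (h ▸ htT)).symm
        · have e : ({i, k, l} : Finset (Fin n)) = {i, l, k} := by ext x; simp; tauto
          rw [h, e] at htT
          exact hal ((hO.mono i l k hil h2 htT).trans hajk.symm)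
        · have e : ({j, k, l} : Finset (Fin n)) = {j, l, k} := by ext x; simp; tauto
          rw [h, e] at htT
          exact hal ((hO.mono j l k hjl h2 htT).trans hajk.symm)
      · rcases hcase with h | h | h
        · exact hal (hO.mono i j l hij hjl (h ▸ htT)).symm
        · exact hal ((hO.mono i k l hik h2 (h ▸ htT)).symm.trans hajk.symm)
        · exact hal ((hO.mono j k l hjk h2 (h ▸ htT)).symm.trans hajk.symm)
    · have hsub : t ⊆ ({i, j, k} : Finset (Fin n)) := by
        intro x hx
        have := htQ hx
        simp only [mem_insert, mem_singleton] at this ⊢
        rcases this with h | h | h | h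
        · exact Or.inl h
        · exact Or.inr (Or.inl h)
        · exact Or.inr (Or.inr h)
        · exact absurd (h ▸ hx) h1
      have := eq_of_subset_of_card_le hsub (card_le_three.trans ht3.ge)
      rw [← this]; exact htT
  simp only [Tri, mem_filter, mem_univ, true_and]
  exact ⟨⟨hij, hjk, hmem⟩, hjm⟩

end Pool.Agent.R23.TT.F1f
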