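import Pool.Agent.R23.TT.Stm

set_option autoImplicit false

namespace Pool.Agent.R23.TT.FIN2f

theorem t_FIN2 : S_FIN2 := by
  intro a b r ha hb hbr hra
  have hp : 0 ≤ r - b := sub_nonneg.mpr hbr
  have hq : 0 ≤ a - r := sub_nonneg.mpr hra
  have hr : r = b + (r - b) := by ring
  have key : ∀ p q : ℝ, 0 ≤ p → 0 ≤ q →
      0 ≤ b * (2 * p ^ 2 + 2 * p * q + 2 * q ^ 2) + 13 / 9 * p ^ 3 + 33 / 9 * (p ^ 2 * q)
        + 30 / 9 * (p * q ^ 2) + 5 / 9 * q ^ 3 := by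
    intro p q hp hq
    positivity
  have h := key (r - b) (a - r) hp hq
  have e : a ^ 3 + b ^ 3 + r ^ 3 + 3 * a ^ 2 * r + 3 * r ^ 2 * b + 3 * b ^ 2 * a
      - 4 / 9 * (a + b + r) ^ 3
      = b * (2 * (r - b) ^ 2 + 2 * (r - b) * (a - r) + 2 * (a - r) ^ 2) + 13 / 9 * (r - b) ^ 3
        + 33 / 9 * ((r - b) ^ 2 * (a - r))
        + 30 / 9 * ((r - b) * (a - r) ^ 2) + 5 / 9 * (a - r) ^ 3 := by
    ring
  linarith [h, e]

end Pool.Agent.R23.TT.FIN2f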