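import Pool.Agent.R23.TT.Stm

set_option autoImplicit false

namespace Pool.Agent.R23.TT.FIN34h

theorem t_FIN3 : S_FIN3 := by
  intro a b r ha hr hrb hbra har _
  obtain ⟨u, hu⟩ : ∃ u, u = b - r := ⟨_, rfl⟩
  obtain ⟨v, hv⟩ : ∃ v, v = r - a := ⟨_, rfl⟩
  have hb' : b = r + u := by rw [hu]; ring
  have ha' : a = r - v := by rw [hv]; ring
  have hu0 : 0 ≤ u := by linarith
  have hv0 : 0 ≤ v := by linarith
  have huv : u + v ≤ r := by linarith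
  have hvr : v ≤ r := by linarith
  have k1 : 0 ≤ (r - (u + v)) * (u + v) ^ 2 := mul_nonneg (by linarith) (sq_nonneg _)
  have k2 : 0 ≤ u * (u ^ 2 - 3 * u * v + 3 * v ^ 2) := by
    apply mul_nonneg hu0
    nlinarith [sq_nonneg (u - 3 / 2 * v), sq_nonneg v]
  have k3 : 0 ≤ (r - v) * v ^ 2 := mul_nonneg (by linarith) (sq_nonneg _)
  have k4 : 0 ≤ r * u ^ 2 := mul_nonneg hr (sq_nonneg _)
  have k5 : 0 ≤ r * (u * v) := mul_nonneg hr (mul_nonneg hu0 hv0)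
  have k6 : 0 ≤ r * v ^ 2 := mul_nonneg hr (sq_nonneg _)
  rw [hb', ha']
  nlinarith [k1, k2, k3, k4, k5, k6]

theorem t_FIN4 : S_FIN4 := by
  intro a b r ha hr hrb hbra hra
  obtain ⟨u, hu⟩ : ∃ u, u = b - r := ⟨_, rfl⟩
  obtain ⟨w, hw⟩ : ∃ w, w = a - r := ⟨_, rfl⟩
  have hb' : b = r + u := by rw [hu]; ring
  have ha' : a = r + w := by rw [hw]; ring
  have hu0 : 0 ≤ u := by linarith
  have hw0 : 0 ≤ w := by linarith
  rw [hb', ha']
  nlinarith [mul_nonneg hr (sq_nonneg (u - w)), mul_nonneg hr (mul_nonneg hu0 hw0), mul_nonneg hu0 (sq_nonneg (u - w)), mul_nonneg hw0 (sq_nonneg (u - w)), pow_nonneg hu0 3, pow_nonneg hw0 3, mul_nonneg hu0 (sq_nonneg w), mul_nonneg hw0 (sq_nonneg u), mul_nonneg hr (sq_nonneg u), mul_nonneg hr (sq_nonneg w), mul_nonneg (mul_nonneg hr hr) hu0, mul_nonneg (mul_nonneg hr hr) hw0]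

theorem t_FIN6 : S_FIN6 := by
  intro a b r ha hr hbra hra
  obtain ⟨u, hu⟩ : ∃ u, u = b - a - r := ⟨_, rfl⟩
  obtain ⟨w, hw⟩ : ∃ w, w = a - r := ⟨_, rfl⟩
  have ha' : a = r + w := by rw [hw]; ring
  have hb' : b = 2 * r + w + u := by rw [hu, hw]; ring
  have hu0 : 0 ≤ u := by linarith
  have hw0 : 0 ≤ w := by linarith
  rw [hb', ha']
  nlinarith [pow_nonneg hu0 3, pow_nonneg hw0 3, pow_nonneg hr 3, mul_nonneg hr (sq_nonneg u), mul_nonneg hr (sq_nonneg w), mul_nonneg (mul_nonneg hr hr) hu0, mul_nonneg (mul_nonneg hr hr) hw0, mul_nonneg hr (mul_nonneg hu0 hw0), mul_nonneg hu0 (sq_nonneg w), mul_nonneg hw0 (sq_nonneg u)]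

end Pool.Agent.R23.TT.FIN34h
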