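import Pool.Agent.R23.TT.Stm
set_option autoImplicit false
open Finset

namespace Pool.Agent.R23.TT.GOODf

namespace GOODx

variable {V : Type*} [Fintype V] [DecidableEq V] (G : SimpleGraph V) [DecidableRel G.Adj]

/-- ordered triangles -/
def T3 : Finset (V × V × V) :=
  univ.filter fun p => G.Adj p.1 p.2.1 ∧ G.Adj p.2.1 p.2.2 ∧ G.Adj p.1 p.2.2

theorem T3_le : #(T3 G) ≤ 6 * #(G.cliqueFinset 3) := by
  apply card_le_mul_card_image_of_maps_to (f := fun p : V × V × V => ({p.1, p.2.1, p.2.2} : Finset V))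
  · intro p hp
    simp only [T3, mem_filter, mem_univ, true_and] at hp
    obtain ⟨h1, h2, h3⟩ := hp
    rw [SimpleGraph.mem_cliqueFinset_iff, SimpleGraph.is3Clique_iff]
    exact ⟨p.1, p.2.1, p.2.2, h1, h3, h2, rfl⟩
  · intro b hb
    rw [SimpleGraph.mem_cliqueFinset_iff, SimpleGraph.is3Clique_iff] at hb
    obtain ⟨x, y, z, hxy, hxz, hyz, rfl⟩ := hb
    refine (card_le_card (t := {(x, y, z), (x, z, y), (y, x, z), (y, z, x), (z, x, y), (z, y, x)})
      ?_).trans card_le_six
    rintro ⟨u, v, w⟩ hp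
    simp only [T3, mem_filter, mem_univ, true_and] at hp
    obtain ⟨⟨h1, h2, h3⟩, he⟩ := hp
    have hu : u ∈ ({x, y, z} : Finset V) := by rw [← he]; simp
    have hv : v ∈ ({x, y, z} : Finset V) := by rw [← he]; simp
    have hw : w ∈ ({x, y, z} : Finset V) := by rw [← he]; simp
    have n1 := h1.ne
    have n2 := h2.ne
    have n3 := h3.ne
    simp only [mem_insert, mem_singleton] at hu hv hw ⊢
    simp only [Prod.mk.injEq]
    rcases hu with rfl | rfl | rfl <;> rcases hv with rfl | rfl | rfl <;>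
      rcases hw with rfl | rfl | rfl <;> simp_all

theorem T3_ge : ∑ u, ∑ v ∈ G.neighborFinset u, ((G.degree u : ℤ) + G.degree v - Fintype.card V) ≤
    #(T3 G) := by
  have h1 : (#(T3 G) : ℤ) = ∑ u, ∑ v ∈ G.neighborFinset u,
      (#(G.neighborFinset u ∩ G.neighborFinset v) : ℤ) := by
    have : T3 G = (univ : Finset V).biUnion fun u => (G.neighborFinset u).biUnion fun v =>
        (G.neighborFinset u ∩ G.neighborFinset v).image fun w => (u, v, w) := by
      ext ⟨u, v, w⟩
      simp only [T3, mem_filter, mem_univ, true_and, mem_biUnion, SimpleGraph.mem_neighborFinset,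
        mem_image, mem_inter, Prod.mk.injEq]
      constructor
      · rintro ⟨h1, h2, h3⟩
        exact ⟨u, v, h1, w, ⟨h3, h2⟩, rfl, rfl, rfl⟩
      · rintro ⟨u', v', h1, w', ⟨h3, h2⟩, rfl, rfl, rfl⟩
        exact ⟨h1, h2, h3⟩
    rw [this, card_biUnion]
    · push_cast
      apply sum_congr rfl
      intro u _
      rw [card_biUnion]
      · push_cast
        apply sum_congr rfl
        intro v _
        rw [card_image_of_injective]
        intro w w' h
        simpa using h
      · intro v _ v' _ hvv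
        rw [Function.onFun, disjoint_left]
        intro p hp hp'
        simp only [mem_image] at hp hp'
        obtain ⟨w, _, rfl⟩ := hp
        obtain ⟨w', _, h⟩ := hp'
        simp only [Prod.mk.injEq] at h
        exact hvv h.2.1.symm
    · intro u _ u' _ huu
      rw [Function.onFun, disjoint_left]
      intro p hp hp'
      simp only [mem_image, mem_biUnion] at hp hp'
      obtain ⟨v, _, w, _, rfl⟩ := hp
      obtain ⟨v', _, w', _, h⟩ := hp'
      simp only [Prod.mk.injEq] at h
      exact huu h.1.symm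
  rw [h1]
  apply sum_le_sum
  intro u _
  apply sum_le_sum
  intro v _
  have h2 := card_union_add_card_inter (G.neighborFinset u) (G.neighborFinset v)
  have h3 : #(G.neighborFinset u ∪ G.neighborFinset v) ≤ Fintype.card V := card_le_univ _
  rw [SimpleGraph.card_neighborFinset_eq_degree, SimpleGraph.card_neighborFinset_eq_degree] at h2
  omega

theorem sum_eq : ∑ u, ∑ v ∈ G.neighborFinset u, ((G.degree u : ℤ) + G.degree v - Fintype.card V) =
    2 * ∑ u, (G.degree u : ℤ) ^ 2 - Fintype.card V * ∑ u, (G.degree u : ℤ) := by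
  have h1 : ∑ u, ∑ v ∈ G.neighborFinset u, (G.degree v : ℤ) = ∑ u, (G.degree u : ℤ) ^ 2 := by
    have : ∀ u, ∑ v ∈ G.neighborFinset u, (G.degree v : ℤ) =
        ∑ v, if G.Adj u v then (G.degree v : ℤ) else 0 := by
      intro u
      rw [← sum_filter]
      apply sum_congr _ fun _ _ => rfl
      ext v; simp
    simp_rw [this]
    rw [sum_comm]
    apply sum_congr rfl
    intro v _
    have h2 : ∑ u, (if G.Adj u v then (G.degree v : ℤ) else 0) =
        ∑ u ∈ G.neighborFinset v, (G.degree v : ℤ) := by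
      rw [← sum_filter]
      apply sum_congr _ fun _ _ => rfl
      ext u; simp [G.adj_comm]
    rw [h2, sum_const, SimpleGraph.card_neighborFinset_eq_degree, nsmul_eq_mul, sq]
  have h3 : ∑ u, ∑ v ∈ G.neighborFinset u, (G.degree u : ℤ) = ∑ u, (G.degree u : ℤ) ^ 2 := by
    apply sum_congr rfl
    intro u _
    rw [sum_const, SimpleGraph.card_neighborFinset_eq_degree, nsmul_eq_mul, sq]
  have h4 : ∑ u, ∑ v ∈ G.neighborFinset u, (Fintype.card V : ℤ) =
      Fintype.card V * ∑ u, (G.degree u : ℤ) := by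
    rw [mul_sum]
    apply sum_congr rfl
    intro u _
    rw [sum_const, SimpleGraph.card_neighborFinset_eq_degree, nsmul_eq_mul, mul_comm]
  simp only [sum_sub_distrib, sum_add_distrib]
  rw [h1, h3, h4]
  ring

theorem goodman : (4 : ℤ) * (#G.edgeFinset : ℤ) ^ 2 ≤
    3 * Fintype.card V * #(G.cliqueFinset 3) + (Fintype.card V : ℤ) ^ 2 * #G.edgeFinset := by
  have h1 := T3_le G
  have h2 := T3_ge G
  rw [sum_eq] at h2
  have h3 : ∑ u, (G.degree u : ℤ) = 2 * #G.edgeFinset := by
    exact_mod_cast G.sum_degrees_eq_twice_card_edges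
  have h4 : (∑ u, (G.degree u : ℤ)) ^ 2 ≤ Fintype.card V * ∑ u, (G.degree u : ℤ) ^ 2 := by
    have := sq_sum_le_card_mul_sum_sq (s := (univ : Finset V)) (f := fun u => (G.degree u : ℤ))
    simpa using this
  rw [h3] at h2 h4
  have h5 : (#(T3 G) : ℤ) ≤ 6 * #(G.cliqueFinset 3) := by exact_mod_cast h1
  have hn : (0 : ℤ) ≤ Fintype.card V := by positivity
  have h6 : 2 * ∑ u, (G.degree u : ℤ) ^ 2 - Fintype.card V * (2 * #G.edgeFinset) ≤
      6 * #(G.cliqueFinset 3) := h2.trans h5
  have h7 := mul_le_mul_of_nonneg_left h6 hn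
  nlinarith

end GOODx

theorem t_GOOD : S_GOOD := by
  intro V _ _ H _
  have h := GOODx.goodman H
  have h' : (4 : ℝ) * (H.edgeFinset.card : ℝ) ^ 2 ≤
      3 * Fintype.card V * (H.cliqueFinset 3).card +
        (Fintype.card V : ℝ) ^ 2 * H.edgeFinset.card := by exact_mod_cast h
  nlinarith

end Pool.Agent.R23.TT.GOODf
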