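import Pool.Agent.R23.TT.Stm

set_option autoImplicit false

namespace Pool.Agent.R23.TT.RUNTRIf

open Finset

theorem t_RUN : S_RUN := by
  classical
  intro n a hn
  obtain ⟨A, hA⟩ : ∃ A, a ⟨n - 1, by omega⟩ = A := ⟨_, rfl⟩
  have hex : ∃ m : ℕ, ∀ j : Fin n, m ≤ j.val → a j = A := by
    refine ⟨n - 1, fun j hj => ?_⟩
    have : j = ⟨n - 1, by omega⟩ := by
      apply Fin.ext
      have := j.isLt
      simp only
      omega
    rw [this, hA]
  refine ⟨Nat.find hex, A, ?_, Nat.find_spec hex, ?_⟩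
  · by_contra h
    have h1 : n - 1 < Nat.find hex := by omega
    apply Nat.find_min hex h1
    intro j hj
    have : j = ⟨n - 1, by omega⟩ := by
      apply Fin.ext
      have := j.isLt
      simp only
      omega
    rw [this, hA]
  · rcases Nat.eq_zero_or_pos (Nat.find hex) with h | h
    · exact Or.inl h
    · right
      have h1 := Nat.find_min hex (show Nat.find hex - 1 < Nat.find hex by omega)
      push Not at h1
      obtain ⟨j, hj1, hj2⟩ := h1
      refine ⟨j, ?_, hj2⟩
      by_contra hne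
      exact hj2 (Nat.find_spec hex j (by omega))

theorem t_TRI : S_TRI := by
  classical
  intro n T hT
  symm
  apply Finset.card_bij (fun (p : Fin n × Fin n × Fin n) _ => ({p.1, p.2.1, p.2.2} : Finset (Fin n)))
  · intro p hp
    simp only [Tri, mem_filter, mem_univ, true_and] at hp
    exact hp.2.2
  · rintro ⟨x, y, z⟩ hp ⟨x', y', z'⟩ hp' h
    simp only [Tri, mem_filter, mem_univ, true_and] at hp hp' h
    obtain ⟨h1, h2, -⟩ := hp
    obtain ⟨h3, h4, -⟩ := hp'
    have hx : x ∈ ({x', y', z'} : Finset (Fin n)) := by rw [← h]; simp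
    have hy : y ∈ ({x', y', z'} : Finset (Fin n)) := by rw [← h]; simp
    have hz : z ∈ ({x', y', z'} : Finset (Fin n)) := by rw [← h]; simp
    have hx' : x' ∈ ({x, y, z} : Finset (Fin n)) := by rw [h]; simp
    simp only [mem_insert, mem_singleton, Fin.ext_iff] at hx hy hz hx'
    simp only [Fin.lt_def] at h1 h2 h3 h4
    simp only [Prod.mk.injEq, Fin.ext_iff]
    omega
  · intro t ht
    obtain ⟨x, y, z, hxy, hxz, hyz, rfl⟩ := Finset.card_eq_three.1 (hT t ht)
    have key : ∀ x y z : Fin n, x < y → y < z → ({x, y, z} : Finset (Fin n)) ∈ T →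
        ∃ p, ∃ (_ : p ∈ Tri T), ({p.1, p.2.1, p.2.2} : Finset (Fin n)) = {x, y, z} := by
      intro x y z h1 h2 h3
      exact ⟨(x, y, z), by simp [Tri, h1, h2, h3], rfl⟩
    rcases lt_or_gt_of_ne hxy with h1 | h1 <;> rcases lt_or_gt_of_ne hxz with h2 | h2 <;>
      rcases lt_or_gt_of_ne hyz with h3 | h3
    · exact key x y z h1 h3 ht
    · have e : ({x, y, z} : Finset (Fin n)) = {x, z, y} := by ext w; simp; tauto
      rw [e] at ht ⊢; exact key x z y h2 h3 ht
    · exact absurd (h1.trans h3) (not_lt.2 h2.le)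
    · have e : ({x, y, z} : Finset (Fin n)) = {z, x, y} := by ext w; simp; tauto
      rw [e] at ht ⊢; exact key z x y h2 h1 ht
    · have e : ({x, y, z} : Finset (Fin n)) = {y, x, z} := by ext w; simp; tauto
      rw [e] at ht ⊢; exact key y x z h1 h2 ht
    · exact absurd (h2.trans h3) (not_lt.2 h1.le)
    · have e : ({x, y, z} : Finset (Fin n)) = {y, z, x} := by ext w; simp; tauto
      rw [e] at ht ⊢; exact key y z x h3 h2 ht
    · have e : ({x, y, z} : Finset (Fin n)) = {z, y, x} := by ext w; simp; tauto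
      rw [e] at ht ⊢; exact key z y x h3 h1 ht

end Pool.Agent.R23.TT.RUNTRIf
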