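import Pool.Agent.R23.TT.Stm

set_option autoImplicit false

namespace Pool.Agent.R23.TT.SEQf

open Finset

private lemma parts (a : ℕ → ℝ) (m : ℕ) : ∑ j ∈ range m, (j : ℝ) * (a j - a (j + 1)) =
    ∑ j ∈ range m, a j + a m - a 0 - m * a m := by
  induction m with
  | zero => simp
  | succ m ih => rw [sum_range_succ, sum_range_succ, ih]; push_cast; ring

private lemma quad (c : ℝ) (m : ℕ) : ∑ j ∈ range m, (j : ℝ) * (c - j) =
    c * (m * (m - 1)) / 2 - (m - 1) * m * (2 * m - 1) / 6 := by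
  induction m with
  | zero => simp
  | succ m ih => rw [sum_range_succ, ih]; push_cast; ring

private lemma lin (m : ℕ) : ∑ j ∈ range m, (j : ℝ) = m * (m - 1) / 2 := by
  induction m with
  | zero => simp
  | succ m ih => rw [sum_range_succ, ih]; push_cast; ring

theorem t_SEQ (hP : S_PATH) : S_SEQ := by
  intro m r y hy
  have h := hP m r y hy
  have h0 : max (-(((r : ℤ) : ℤ) : ℝ) - ((range m).filter (fun j => y j = 1)).card) 0 = 0 := by
    apply max_eq_right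
    have h1 : (0 : ℝ) ≤ ((r : ℤ) : ℝ) := by positivity
    have h2 : (0 : ℝ) ≤ (((range m).filter (fun j => y j = 1)).card : ℝ) := by positivity
    linarith
  rw [h0] at h
  have habs : |((r : ℤ) : ℝ)| = (r : ℝ) := by simp
  rw [habs] at h
  obtain ⟨Z, hZ⟩ : ∃ Z : ℕ → ℝ, ∀ j, Z j = (r : ℝ) + ∑ k ∈ Ico j m, (y k : ℝ) := ⟨_, fun j => rfl⟩
  have hsq : ∀ j < m, (y j : ℝ) * ((r : ℝ) + ∑ k ∈ Ico (j + 1) m, (y k : ℝ)) =
      (Z j ^ 2 - Z (j + 1) ^ 2 - 1) / 2 := by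
    intro j hj
    have e : Z j = Z (j + 1) + y j := by
      rw [hZ, hZ, Finset.sum_eq_sum_Ico_succ_bot hj]; ring
    have e2 : (y j : ℝ) ^ 2 = 1 := by
      rcases hy j with h | h <;> simp [h]
    rw [← hZ (j + 1), e]
    linear_combination (-1 / 2) * e2
  have hS : ((∑ j ∈ range m, (j : ℤ) * (((m : ℤ) - 1 - j) + (r : ℤ) +
      y j * ((r : ℤ) + ∑ k ∈ Ico (j + 1) m, y k)) : ℤ) : ℝ) =
      ∑ j ∈ range m, ((j : ℝ) * ((m - 1 + r : ℝ) - j)) +
        (1 / 2) * ∑ j ∈ range m, ((j : ℝ) * ((fun i => Z i ^ 2) j - (fun i => Z i ^ 2) (j + 1))) -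
        (1 / 2) * ∑ j ∈ range m, (j : ℝ) := by
    rw [mul_sum, mul_sum, ← sum_add_distrib, ← sum_sub_distrib]
    push_cast
    refine sum_congr rfl fun j hj => ?_
    rw [hsq j (mem_range.1 hj)]
    ring
  rw [hS, parts, quad, lin]
  have hZm : Z m = r := by rw [hZ]; simp
  have hZ0 : Z 0 = (((r : ℤ) + ∑ k ∈ range m, y k : ℤ) : ℝ) := by
    rw [hZ]; push_cast; simp
  have hsum : ∑ j ∈ range m, (((r : ℤ) + ∑ k ∈ Ico j m, y k : ℤ) : ℝ) ^ 2 =
      ∑ j ∈ range m, Z j ^ 2 := by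
    refine sum_congr rfl fun j _ => ?_
    rw [hZ]; push_cast; simp
  rw [hsum] at h
  have hb : |Z 0| ≤ (m : ℝ) + r := by
    rw [hZ]
    have h1 : |∑ k ∈ Ico 0 m, (y k : ℝ)| ≤ m := by
      refine (Finset.abs_sum_le_sum_abs _ _).trans ?_
      have : ∑ k ∈ Ico 0 m, |(y k : ℝ)| = ∑ k ∈ Ico 0 m, (1 : ℝ) := by
        refine sum_congr rfl fun j _ => ?_
        rcases hy j with h | h <;> simp [h]
      rw [this]; simp
    calc |(r : ℝ) + ∑ k ∈ Ico 0 m, (y k : ℝ)| ≤ |(r : ℝ)| + |∑ k ∈ Ico 0 m, (y k : ℝ)| := abs_add_le _ _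
      _ ≤ r + m := by
        rw [abs_of_nonneg (by positivity : (0 : ℝ) ≤ (r : ℝ))]; linarith
      _ = m + r := by ring
  have hb2 : Z 0 ^ 2 ≤ ((m : ℝ) + r) ^ 2 := sq_le_sq' (by linarith [abs_le.1 hb]) (abs_le.1 hb).2
  have hc : ((r : ℤ) : ℝ) = (r : ℝ) := by simp
  rw [hc] at h
  rw [← hZ0] at h ⊢
  simp only [hZm]
  have hm : (0 : ℝ) ≤ m := by positivity
  have hr : (0 : ℝ) ≤ r := by positivity
  have hmr : 0 ≤ (m : ℝ) * r := mul_nonneg hm hr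
  nlinarith [h, hb2, hmr, sq_nonneg (m : ℝ), sq_nonneg (r : ℝ)]

end Pool.Agent.R23.TT.SEQf
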