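import Pool.Agent.R23.TT.Stm

set_option autoImplicit false

namespace Pool.Agent.R23.TT.SPLITm

open Finset

theorem t_SPLIT : S_SPLIT := by
  intro n T a m A hm
  have h1 := card_filter_add_card_filter_not (s := X3 T a m A) (p := fun p => m ≤ p.1.val)
  have e1 : (X3 T a m A).filter (fun p => m ≤ p.1.val) = (Tri T).filter (fun p => m ≤ p.1.val) := by
    ext p
    simp only [X3, mem_filter]
    constructor
    · rintro ⟨⟨h, _⟩, h2⟩
      exact ⟨h, h2⟩
    · rintro ⟨h, h2⟩
      refine ⟨⟨h, ?_, ?_⟩, h2⟩
      · have h3 := (mem_filter.1 h).2.1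
        have h4 : p.1.val < p.2.1.val := h3
        omega
      · intro h3
        omega
  have e2 : ((X3 T a m A).filter (fun p => ¬ m ≤ p.1.val)).card =
      ∑ x ∈ univ.filter (fun j : Fin n => j.val < m ∧ a j = A), lk T m x := by
    rw [card_eq_sum_card_fiberwise (f := fun p : Fin n × Fin n × Fin n => p.1)
      (t := univ.filter (fun j : Fin n => j.val < m ∧ a j = A))]
    · apply sum_congr rfl
      intro x hx
      simp only [mem_filter, mem_univ, true_and] at hx
      unfold lk
      apply card_bij (fun (p : Fin n × Fin n × Fin n) _ => p.2)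
      · intro p hp
        simp only [X3, Tri, mem_filter, mem_univ, true_and] at hp
        obtain ⟨⟨⟨⟨h1, h2, h3⟩, h4, h5⟩, h6⟩, h7⟩ := hp
        simp only [mem_filter, mem_univ, true_and]
        refine ⟨h4, h2, ?_⟩
        rw [← h7]
        exact h3
      · intro p hp q hq h
        simp only [mem_filter] at hp hq
        exact Prod.ext (hp.2.trans hq.2.symm) h
      · intro q hq
        simp only [mem_filter, mem_univ, true_and] at hq
        refine ⟨(x, q), ?_, rfl⟩
        simp only [X3, Tri, mem_filter, mem_univ, true_and, and_true]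
        refine ⟨⟨⟨?_, hq.2.1, hq.2.2⟩, hq.1, ?_⟩, by omega⟩
        · show x.val < q.1.val
          omega
        · rintro ⟨_, h⟩
          exact h hx.2
    · intro p hp
      have hp' := mem_coe.1 hp
      simp only [X3, mem_filter] at hp'
      simp only [coe_filter, mem_univ, true_and, Set.mem_setOf_eq]
      obtain ⟨⟨_, _, h2⟩, h3⟩ := hp'
      refine ⟨by omega, ?_⟩
      by_contra hne
      exact h2 ⟨by omega, hne⟩
  rw [e1] at h1
  rw [e2] at h1
  unfold tl
  omega

end Pool.Agent.R23.TT.SPLITm
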