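import Pool.Agent.R23.TT.Stm

namespace Pool.Agent.R23.TT.X2f

open Finset

theorem X2_three {n : ℕ} {t : Finset (Fin n)} {x b c d : Fin n} (ht3 : t.card = 3)
    (hx : x ∉ t) (hsub : ∀ y ∈ t, y = x ∨ y = b ∨ y = c ∨ y = d) : t = {b, c, d} := by
  refine eq_of_subset_of_card_le (fun y hy => ?_) (by rw [ht3]; exact card_le_three)
  rcases hsub y hy with h | h | h | h
  · exact absurd (h ▸ hy) hx
  · simp [h]
  · simp [h]
  · simp [h]

theorem X2_main {n : ℕ} {T : Finset (Finset (Fin n))} {a : Fin n → Bool} {m : ℕ} {A : Bool}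
    (hO : Ord T a) (hR : Run a m A) {k l : Fin n} (hk : m ≤ k.val) (hkl : k < l)
    {b b' : Fin n} (hbb : b < b') (hb' : b'.val < m) (hab' : a b' ≠ A)
    (h1 : ({b, k, l} : Finset (Fin n)) ∉ T) (h2 : ({b', k, l} : Finset (Fin n)) ∉ T) : False := by
  have hb'k : b' < k := Fin.lt_def.2 (hb'.trans_le hk)
  have hbk : b < k := hbb.trans hb'k
  have hbl : b < l := hbk.trans hkl
  have hb'l : b' < l := hb'k.trans hkl
  have hl : m ≤ l.val := hk.trans (Fin.lt_def.1 hkl).le
  have hcard : ({b, b', k, l} : Finset (Fin n)).card = 4 := by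
    rw [card_insert_of_notMem, card_insert_of_notMem, card_insert_of_notMem, card_singleton]
    · simp [hkl.ne]
    · simp [hb'k.ne, hb'l.ne]
    · simp [hbb.ne, hbk.ne, hbl.ne]
  obtain ⟨t, ht, htQ⟩ := hO.cov _ hcard
  have ht3 := hO.three t ht
  obtain ⟨x, hxQ, hxt⟩ := exists_mem_notMem_of_card_lt_card (s := t) (t := {b, b', k, l})
    (by rw [ht3, hcard]; norm_num)
  have hm : ∀ y ∈ t, y = b ∨ y = b' ∨ y = k ∨ y = l := fun y hy => by
    simpa using htQ hy
  have hx : x = b ∨ x = b' ∨ x = k ∨ x = l := by simpa using hxQ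
  rcases hx with rfl | rfl | rfl | rfl
  · have : t = {b', k, l} := X2_three ht3 hxt hm
    exact h2 (this ▸ ht)
  · have : t = {b, k, l} := X2_three ht3 hxt (fun y hy => by have := hm y hy; tauto)
    exact h1 (this ▸ ht)
  · have : t = {b, b', l} := X2_three ht3 hxt (fun y hy => by have := hm y hy; tauto)
    have h3 := hO.mono b b' l hbb hb'l (this ▸ ht)
    exact hab' (h3.trans (hR.tail l hl))
  · have : t = {b, b', k} := X2_three ht3 hxt (fun y hy => by have := hm y hy; tauto)
    have h3 := hO.mono b b' k hbb hb'k (this ▸ ht)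
    exact hab' (h3.trans (hR.tail k hk))

theorem X2_fib {n : ℕ} {T : Finset (Finset (Fin n))} {a : Fin n → Bool} {m : ℕ} {A : Bool}
    (hO : Ord T a) (hR : Run a m A) (k l : Fin n) (hk : m ≤ k.val) (hkl : k < l) :
    be a m A ≤ ((X2 T a m A).filter (fun p => p.2 = (k, l))).card + 1 := by
  classical
  set B : Finset (Fin n) := univ.filter (fun j : Fin n => j.val < m ∧ a j ≠ A) with hB
  have hm : ∀ b, b ∈ B ↔ b.val < m ∧ a b ≠ A := fun b => by simp [hB]
  have h1 : (B.filter (fun b => ({b, k, l} : Finset (Fin n)) ∈ T)).card +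
      (B.filter (fun b => ¬ ({b, k, l} : Finset (Fin n)) ∈ T)).card = B.card :=
    card_filter_add_card_filter_not _
  have h2 : (B.filter (fun b => ({b, k, l} : Finset (Fin n)) ∈ T)).card ≤
      ((X2 T a m A).filter (fun p => p.2 = (k, l))).card := by
    refine card_le_card_of_injOn (fun b => (b, (k, l))) ?_ ?_
    · intro b hb
      have hb0 := mem_filter.1 (mem_coe.1 hb)
      have hb1 := (hm b).1 hb0.1
      refine mem_coe.2 (mem_filter.2 ⟨mem_filter.2 ⟨mem_filter.2 ⟨mem_univ _, ?_, hkl, hb0.2⟩,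
        hk, hb1⟩, rfl⟩)
      exact Fin.lt_def.2 (hb1.1.trans_le hk)
    · intro b _ b' _ h
      exact (Prod.mk.inj h).1
  have h3 : (B.filter (fun b => ¬ ({b, k, l} : Finset (Fin n)) ∈ T)).card ≤ 1 := by
    rw [card_le_one]
    intro b hb b' hb'
    by_contra hne
    have hb0 := mem_filter.1 hb
    have hb1 := (hm b).1 hb0.1
    have hb0' := mem_filter.1 hb'
    have hb1' := (hm b').1 hb0'.1
    rcases lt_or_gt_of_ne hne with h | h
    · exact X2_main hO hR hk hkl h hb1'.1 hb1'.2 hb0.2 hb0'.2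
    · exact X2_main hO hR hk hkl h hb1.1 hb1.2 hb0'.2 hb0.2
  have h4 : be a m A = B.card := rfl
  omega

theorem X2_pairs {n m : ℕ} (hmn : m < n) :
    ((n : ℝ) - m) * ((n : ℝ) - m - 1) / 2 ≤
      (((univ : Finset (Fin n × Fin n)).filter (fun q => m ≤ q.1.val ∧ q.1 < q.2)).card : ℝ) := by
  classical
  set P := (univ : Finset (Fin n × Fin n)).filter (fun q => m ≤ q.1.val ∧ q.1 < q.2) with hP
  set K : Finset (Fin n) := univ.filter (fun k : Fin n => m ≤ k.val) with hK
  have hK1 : n ≤ K.card + m := by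
    have e1 : K.card +
        (univ.filter (fun k : Fin n => ¬ m ≤ k.val)).card = (univ : Finset (Fin n)).card :=
      card_filter_add_card_filter_not _
    have e2 : (univ.filter (fun k : Fin n => ¬ m ≤ k.val)).card ≤ (range m).card := by
      refine card_le_card_of_injOn (fun k => k.val) ?_ ?_
      · intro k hk
        have := (mem_filter.1 (mem_coe.1 hk)).2
        exact mem_coe.2 (mem_range.2 (not_le.1 this))
      · intro k _ k' _ h
        exact Fin.ext h
    rw [card_range] at e2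
    rw [card_univ, Fintype.card_fin] at e1
    omega
  have h1 : K.offDiag ⊆ P ∪ P.image Prod.swap := by
    rintro ⟨x, y⟩ hxy
    obtain ⟨hx, hy, hne⟩ := mem_offDiag.1 hxy
    have hx' : m ≤ x.val := (mem_filter.1 hx).2
    have hy' : m ≤ y.val := (mem_filter.1 hy).2
    rcases lt_or_gt_of_ne hne with h | h
    · exact mem_union_left _ (mem_filter.2 ⟨mem_univ _, hx', h⟩)
    · exact mem_union_right _ (mem_image.2 ⟨(y, x), mem_filter.2 ⟨mem_univ _, hy', h⟩, rfl⟩)
  have h2 : K.card * K.card - K.card ≤ P.card + P.card := by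
    rw [← offDiag_card]
    exact (card_le_card h1).trans ((card_union_le _ _).trans
      (Nat.add_le_add_left card_image_le _))
  have h3 : (K.card : ℝ) * K.card - K.card ≤ 2 * P.card := by
    have : K.card * K.card ≤ 2 * P.card + K.card := by omega
    have : ((K.card * K.card : ℕ) : ℝ) ≤ ((2 * P.card + K.card : ℕ) : ℝ) := by exact_mod_cast this
    push_cast at this
    linarith
  have h4 : (n : ℝ) ≤ K.card + m := by exact_mod_cast hK1
  have h5 : (m : ℝ) + 1 ≤ n := by exact_mod_cast hmn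
  nlinarith

theorem t_X2 : S_X2 := by
  intro n T a m A hO hR
  classical
  set P := (univ : Finset (Fin n × Fin n)).filter (fun q => m ≤ q.1.val ∧ q.1 < q.2) with hP
  have hmaps : ∀ p ∈ X2 T a m A, p.2 ∈ P := by
    intro p hp
    have h := mem_filter.1 hp
    have h' := mem_filter.1 h.1
    exact mem_filter.2 ⟨mem_univ _, h.2.1, h'.2.2.1⟩
  have hc := card_eq_sum_card_fiberwise (s := X2 T a m A) (t := P) (f := fun p => p.2)
    (fun p hp => hmaps p hp)
  have hsum : (be a m A : ℝ) * P.card ≤ (X2 T a m A).card + P.card := by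
    have e1 : P.card * be a m A ≤ ∑ q ∈ P, (((X2 T a m A).filter (fun p => p.2 = q)).card + 1) := by
      rw [← smul_eq_mul]
      refine card_nsmul_le_sum _ _ _ ?_
      rintro ⟨k, l⟩ hq
      have hq' := (mem_filter.1 hq).2
      exact X2_fib hO hR k l hq'.1 hq'.2
    rw [sum_add_distrib, ← hc] at e1
    simp only [sum_const, smul_eq_mul, mul_one] at e1
    have e2 : ((P.card * be a m A : ℕ) : ℝ) ≤ (((X2 T a m A).card + P.card : ℕ) : ℝ) := by
      exact_mod_cast e1
    push_cast at e2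
    linarith
  have hp := X2_pairs hR.lt
  have hmn : (m : ℝ) + 1 ≤ n := by exact_mod_cast hR.lt
  have h0 : 0 ≤ ((n : ℝ) - m) * ((n : ℝ) - m - 1) / 2 := by
    have : 0 ≤ ((n : ℝ) - m) * ((n : ℝ) - m - 1) := mul_nonneg (by linarith) (by linarith)
    linarith
  have hX : (0 : ℝ) ≤ ((X2 T a m A).card : ℝ) := Nat.cast_nonneg _
  rcases Nat.eq_zero_or_pos (be a m A) with hb | hb
  · rw [hb]
    push_cast
    linarith
  · have hb1 : (0 : ℝ) ≤ (be a m A : ℝ) - 1 := by
      have : (1 : ℝ) ≤ (be a m A : ℝ) := by exact_mod_cast hb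
      linarith
    have := mul_le_mul_of_nonneg_left hp hb1
    linarith

end Pool.Agent.R23.TT.X2f
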