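import Pool.Agent.R23.TT.Stm

set_option autoImplicit false

namespace Pool.Agent.R23.TT.X3f

open Finset

theorem t_X3 (hT : S_TAIL) (hS : S_SPLIT) : S_X3 := by
  intro n T a m A hO hR
  have hm : m < n := hR.lt
  have hX := hS n T a m A hm
  have hmr : (m : ℝ) + 1 ≤ n := by exact_mod_cast hm
  have hm0 : (0 : ℝ) ≤ m := Nat.cast_nonneg m
  obtain ⟨r, hr⟩ : ∃ r : ℝ, r = (n : ℝ) - m := ⟨_, rfl⟩
  have hr1 : 1 ≤ r := by rw [hr]; linarith
  have hrn : r ≤ n := by rw [hr]; linarith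
  rw [← hr]
  have hX0 : (0 : ℝ) ≤ ((X3 T a m A).card : ℝ) := Nat.cast_nonneg _
  have hn2 : r ^ 2 ≤ (n : ℝ) ^ 2 := by
    apply pow_le_pow_left₀ (by linarith) hrn
  have hn0 : (0 : ℝ) ≤ (n : ℝ) ^ 2 := sq_nonneg _
  have key : r ^ 3 - 9 / 8 * r * (max (r - al a m A) 0) ^ 2 - 20 * (n : ℝ) ^ 2 ≤
      6 * ((X3 T a m A).card : ℝ) := by
    rcases Nat.eq_zero_or_pos (al a m A) with h0 | h0
    · rw [h0]
      have : max (r - ((0 : ℕ) : ℝ)) 0 = r := by
        rw [Nat.cast_zero, sub_zero, max_eq_left (by linarith)]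
      rw [this]
      have h3 : 0 ≤ r ^ 3 := by positivity
      nlinarith
    · have hne : (univ.filter (fun j : Fin n => j.val < m ∧ a j = A)).Nonempty := by
        rw [← Finset.card_pos]
        exact h0
      obtain ⟨x, hx, hmin⟩ := Finset.exists_min_image _ (fun x => lk T m x) hne
      have hxm : x.val < m := ((Finset.mem_filter.mp hx).2).1
      have ht := hT n T m x hO.cov hO.three hm hxm
      rw [← hr] at ht
      have hsum : al a m A * lk T m x ≤
          ∑ x ∈ univ.filter (fun j : Fin n => j.val < m ∧ a j = A), lk T m x := by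
        have := Finset.card_nsmul_le_sum _ (fun x => lk T m x) (lk T m x) hmin
        simpa [al] using this
      have hXr : ((tl T m : ℝ)) + (al a m A : ℝ) * (lk T m x : ℝ) ≤ ((X3 T a m A).card : ℝ) := by
        rw [hX]
        push_cast
        have : ((al a m A : ℝ)) * (lk T m x : ℝ) ≤
            ((∑ x ∈ univ.filter (fun j : Fin n => j.val < m ∧ a j = A), lk T m x : ℕ) : ℝ) := by
          exact_mod_cast hsum
        push_cast at this
        linarith
      obtain ⟨l, hl⟩ : ∃ l : ℝ, l = (lk T m x : ℝ) := ⟨_, rfl⟩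
      obtain ⟨t, htl⟩ : ∃ t : ℝ, t = (tl T m : ℝ) := ⟨_, rfl⟩
      obtain ⟨p, hp⟩ : ∃ p : ℝ, p = (al a m A : ℝ) := ⟨_, rfl⟩
      obtain ⟨X, hXX⟩ : ∃ X : ℝ, X = ((X3 T a m A).card : ℝ) := ⟨_, rfl⟩
      have hl0 : 0 ≤ l := by rw [hl]; exact Nat.cast_nonneg _
      rw [← hl, ← htl] at ht
      rw [← hl, ← htl, ← hp, ← hXX] at hXr
      rw [← hp, ← hXX]
      have hrp : 0 < r := by linarith
      have h1 : (r ^ 2 - r - 2 * l) * (r ^ 2 - 2 * r - 4 * l) ≤ 6 * r * t := by
        nlinarith [ht]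
      have h2 : (r ^ 2 - 2 * l) * (r ^ 2 - 4 * l) - 3 * r ^ 3 ≤ 6 * r * t := by
        nlinarith [mul_nonneg hrp.le hl0, sq_nonneg r]
      have h3 : r * (t + p * l) ≤ r * X := mul_le_mul_of_nonneg_left hXr hrp.le
      have h5 : r * r ^ 2 ≤ r * (n : ℝ) ^ 2 := mul_le_mul_of_nonneg_left hn2 hrp.le
      have h6 : 0 ≤ r * (n : ℝ) ^ 2 := by positivity
      have h4 : r * (r ^ 3 - 9 / 8 * r * (max (r - p) 0) ^ 2 - 20 * (n : ℝ) ^ 2) ≤
          r * (6 * X) := by
        rcases le_total r p with hrp2 | hrp2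
        · rw [max_eq_right (by linarith)]
          have h7 : r * (r * l) ≤ p * (r * l) :=
            mul_le_mul_of_nonneg_right hrp2 (mul_nonneg hrp.le hl0)
          nlinarith [sq_nonneg l]
        · rw [max_eq_left (by linarith)]
          nlinarith [sq_nonneg (l - 3 / 8 * (r - p) * r)]
      exact le_of_mul_le_mul_left h4 hrp
  rcases le_total 0 (r ^ 3 - 9 / 8 * r * (max (r - al a m A) 0) ^ 2) with h | h
  · rw [max_eq_right h]
    exact key
  · rw [max_eq_left h]
    linarith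

end Pool.Agent.R23.TT.X3f
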